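import Mathlib

/-!
# The Laplacian spread inequality

Let `g` be a symmetric matrix with entries `0`, `1`, let `α` be the algebraic connectivity of `g`
and `β` the one of `1 - g`. Then `α + β ≥ 1`. The proof looks at the eigenvector equations of the
two Fiedler vectors at the two extreme vertices of each of them.
-/

namespace Q281.LS

open Finset

section Core

variable {n : ℕ} {g : Fin n → Fin n → ℝ} {X Y : Fin n → ℝ} {α β : ℝ} {a a' b b' : Fin n}

lemma fin_case (hs : ∀ i j, g i j = g j i) (h01 : ∀ i j, g i j = 0 ∨ g i j = 1)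
    (hX : ∀ i, 0 ≤ X i ∧ X i ≤ 1) (hY : ∀ i, 0 ≤ Y i ∧ Y i ≤ 1)
    (Xa : X a = 1) (Xa' : X a' = 0) (Yb : Y b = 1) (Yb' : Y b' = 0)
    (eX : ∀ i j, ∑ k, (g i k * (X i - X k) + g j k * (X k - X j)) = α * (X i - X j))
    (eY : ∀ i j, ∑ k, ((1 - g i k) * (Y i - Y k) + (1 - g j k) * (Y k - Y j)) =
      β * (Y i - Y j))
    (hA : ∀ k, ¬ (g a k = 1 ∧ g a' k = 1)) (hB : ∀ k, ¬ (g b k = 0 ∧ g b' k = 0))
    (haa : g a a' = 0) (hbb : g b b' = 1)
    (nab : a ≠ b) (nab' : a ≠ b') (na'b : a' ≠ b) (na'b' : a' ≠ b') (naa : a ≠ a') (nbb : b ≠ b')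
    (hab : g a b = 1) (hab' : g a b' = 0) (ha'b : g a' b = 0) (ha'b' : g a' b' = 1)
    (h : α + β < 1) : False := by
  classical
  have e1 := eX a a'
  have e2 := eY b b'
  have e3 := eX b b'
  have e4 := eY a' a
  rw [Xa, Xa'] at e1
  rw [Yb, Yb'] at e2
  have hg : ∀ i j, 0 ≤ g i j ∧ g i j ≤ 1 := by
    intro i j
    rcases h01 i j with h | h <;> rw [h] <;> norm_num
  have pA : ∀ k, 0 ≤ g a k * (1 - X k) + g a' k * (X k - 0) := by
    intro k
    have h1 := hg a k
    have h2 := hg a' k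
    have h3 := hX k
    have := mul_nonneg h1.1 (sub_nonneg.2 h3.2)
    have := mul_nonneg h2.1 h3.1
    linarith
  have pB : ∀ k, 0 ≤ (1 - g b k) * (1 - Y k) + (1 - g b' k) * (Y k - 0) := by
    intro k
    have h1 := hg b k
    have h2 := hg b' k
    have h3 := hY k
    have := mul_nonneg (sub_nonneg.2 h1.2) (sub_nonneg.2 h3.2)
    have := mul_nonneg (sub_nonneg.2 h2.2) h3.1
    linarith
  have f1 : (1 - X b) + X b' ≤ α := by
    have h1 := Finset.sum_le_sum_of_subset_of_nonneg (Finset.subset_univ ({b, b'} : Finset (Fin n)))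
      (fun k _ _ => pA k)
    rw [e1, Finset.sum_pair nbb, hab, hab', ha'b, ha'b'] at h1
    linarith
  have f2 : Y a + (1 - Y a') ≤ β := by
    have h1 := Finset.sum_le_sum_of_subset_of_nonneg (Finset.subset_univ ({a, a'} : Finset (Fin n)))
      (fun k _ _ => pB k)
    rw [e2, Finset.sum_pair naa, hs b a, hs b' a, hs b a', hs b' a', hab, hab', ha'b, ha'b'] at h1
    linarith
  have hXb := hX b
  have hXb' := hX b'
  have hYa := hY a
  have hYa' := hY a'
  let T : Fin n → ℝ := fun k =>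
    (g b k * (X b - X k) + g b' k * (X k - X b')) +
      ((1 - g a' k) * (Y a' - Y k) + (1 - g a k) * (Y k - Y a)) +
      2 * (g a k * (1 - X k) + g a' k * (X k - 0)) +
      2 * ((1 - g b k) * (1 - Y k) + (1 - g b' k) * (Y k - 0))
  have hT : ∑ k, T k = α * (X b - X b') + β * (Y a' - Y a) + 2 * (α * (1 - 0)) +
      2 * (β * (1 - 0)) := by
    rw [← e1, ← e2, ← e3, ← e4, Finset.mul_sum, Finset.mul_sum, ← Finset.sum_add_distrib,
      ← Finset.sum_add_distrib, ← Finset.sum_add_distrib]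
  have pT : ∀ k, k ∉ ({a, a', b, b'} : Finset (Fin n)) → 0 ≤ T k := by
    intro k _
    have h1 := hX k
    have h2 := hY k
    have h3 := hA k
    have h4 := hB k
    have cA : (g a k = 0 ∧ g a' k = 0) ∨ (g a k = 1 ∧ g a' k = 0) ∨ (g a k = 0 ∧ g a' k = 1) := by
      rcases h01 a k with k1 | k1
      · rcases h01 a' k with k2 | k2
        · exact Or.inl ⟨k1, k2⟩
        · exact Or.inr (Or.inr ⟨k1, k2⟩)
      · rcases h01 a' k with k2 | k2
        · exact Or.inr (Or.inl ⟨k1, k2⟩)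
        · exact absurd ⟨k1, k2⟩ h3
    have cB : (g b k = 1 ∧ g b' k = 1) ∨ (g b k = 1 ∧ g b' k = 0) ∨ (g b k = 0 ∧ g b' k = 1) := by
      rcases h01 b k with k1 | k1
      · rcases h01 b' k with k2 | k2
        · exact absurd ⟨k1, k2⟩ h4
        · exact Or.inr (Or.inr ⟨k1, k2⟩)
      · rcases h01 b' k with k2 | k2
        · exact Or.inr (Or.inl ⟨k1, k2⟩)
        · exact Or.inl ⟨k1, k2⟩
    simp only [T]
    rcases cA with ⟨k1, k2⟩ | ⟨k1, k2⟩ | ⟨k1, k2⟩ <;>
      rcases cB with ⟨k3, k4⟩ | ⟨k3, k4⟩ | ⟨k3, k4⟩ <;>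
      rw [k1, k2, k3, k4] <;> linarith
  have h5 := Finset.sum_le_sum_of_subset_of_nonneg
    (Finset.subset_univ ({a, a', b, b'} : Finset (Fin n))) (fun k _ hk => pT k hk)
  rw [hT, Finset.sum_insert (by simp [naa, nab, nab']), Finset.sum_insert (by simp [na'b, na'b']),
    Finset.sum_pair nbb] at h5
  simp only [T] at h5
  rw [hs b a, hs b' a, hs b a', hs b' a', hs a' a, hs b' b, hab, hab', ha'b, ha'b', haa, hbb,
    Xa, Xa', Yb, Yb'] at h5
  have hα : 0 ≤ α := by linarith
  have hβ : 0 ≤ β := by linarith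
  have g1 : 0 ≤ (1 - α) * (X b - X b') := mul_nonneg (by linarith) (by linarith)
  have g2 : 0 ≤ (1 - β) * (Y a' - Y a) := mul_nonneg (by linarith) (by linarith)
  nlinarith

theorem core (hs : ∀ i j, g i j = g j i) (h01 : ∀ i j, g i j = 0 ∨ g i j = 1)
    (hX : ∀ i, 0 ≤ X i ∧ X i ≤ 1) (hY : ∀ i, 0 ≤ Y i ∧ Y i ≤ 1)
    (Xa : X a = 1) (Xa' : X a' = 0) (Yb : Y b = 1) (Yb' : Y b' = 0)
    (eX : ∀ i j, ∑ k, (g i k * (X i - X k) + g j k * (X k - X j)) = α * (X i - X j))
    (eY : ∀ i j, ∑ k, ((1 - g i k) * (Y i - Y k) + (1 - g j k) * (Y k - Y j)) =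
      β * (Y i - Y j)) : 1 ≤ α + β := by
  classical
  by_contra hlt
  push Not at hlt
  have e1 := eX a a'
  have e2 := eY b b'
  rw [Xa, Xa'] at e1
  rw [Yb, Yb'] at e2
  have hg : ∀ i j, 0 ≤ g i j ∧ g i j ≤ 1 := by
    intro i j
    rcases h01 i j with h | h <;> rw [h] <;> norm_num
  have pA : ∀ k, 0 ≤ g a k * (1 - X k) + g a' k * (X k - 0) := by
    intro k
    have h1 := hg a k
    have h2 := hg a' k
    have h3 := hX k
    have := mul_nonneg h1.1 (sub_nonneg.2 h3.2)
    have := mul_nonneg h2.1 h3.1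
    linarith
  have pB : ∀ k, 0 ≤ (1 - g b k) * (1 - Y k) + (1 - g b' k) * (Y k - 0) := by
    intro k
    have h1 := hg b k
    have h2 := hg b' k
    have h3 := hY k
    have := mul_nonneg (sub_nonneg.2 h1.2) (sub_nonneg.2 h3.2)
    have := mul_nonneg (sub_nonneg.2 h2.2) h3.1
    linarith
  have sA : ∀ k, g a k * (1 - X k) + g a' k * (X k - 0) ≤ α := by
    intro k
    have h1 := Finset.single_le_sum (fun k _ => pA k) (Finset.mem_univ k)
    rw [e1] at h1
    linarith
  have sB : ∀ k, (1 - g b k) * (1 - Y k) + (1 - g b' k) * (Y k - 0) ≤ β := by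
    intro k
    have h1 := Finset.single_le_sum (fun k _ => pB k) (Finset.mem_univ k)
    rw [e2] at h1
    linarith
  have hα : 0 ≤ α := (pA a).trans (sA a)
  have hβ : 0 ≤ β := (pB b).trans (sB b)
  have hA : ∀ k, ¬ (g a k = 1 ∧ g a' k = 1) := by
    rintro k ⟨h1, h2⟩
    have := sA k
    rw [h1, h2] at this
    linarith
  have hB : ∀ k, ¬ (g b k = 0 ∧ g b' k = 0) := by
    rintro k ⟨h1, h2⟩
    have := sB k
    rw [h1, h2] at this
    linarith
  have haa : g a a' = 0 := by
    rcases h01 a a' with h | h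
    · exact h
    · have := sA a'
      rw [h, Xa'] at this
      linarith
  have hbb : g b b' = 1 := by
    rcases h01 b b' with h | h
    · have := sB b'
      rw [h, Yb'] at this
      linarith
    · exact h
  have naa : a ≠ a' := by
    rintro rfl
    rw [Xa] at Xa'
    norm_num at Xa'
  have nbb : b ≠ b' := by
    rintro rfl
    rw [Yb] at Yb'
    norm_num at Yb'
  have hB' : ∀ k, g b k = 0 → g b' k = 1 := by
    intro k h1
    rcases h01 b' k with h | h
    · exact absurd ⟨h1, h⟩ (hB k)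
    · exact h
  have hB'' : ∀ k, g b' k = 0 → g b k = 1 := by
    intro k h1
    rcases h01 b k with h | h
    · exact absurd ⟨h, h1⟩ (hB k)
    · exact h
  have hA' : ∀ k, g a k = 1 → g a' k = 0 := by
    intro k h1
    rcases h01 a' k with h | h
    · exact h
    · exact absurd ⟨h1, h⟩ (hA k)
  have nab : a ≠ b := by
    rintro rfl
    have h1 := hB' a' haa
    rw [hs] at h1
    exact hA b' ⟨hbb, h1⟩
  have nab' : a ≠ b' := by
    rintro rfl
    have h1 := hB'' a' haa
    rw [hs] at hbb h1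
    exact hA b ⟨hbb, h1⟩
  have na'b : a' ≠ b := by
    rintro rfl
    rw [hs] at haa
    have h1 := hB' a haa
    rw [hs] at h1
    exact hA b' ⟨h1, hbb⟩
  have na'b' : a' ≠ b' := by
    rintro rfl
    rw [hs] at haa
    have h1 := hB'' a haa
    rw [hs] at hbb h1
    exact hA b ⟨h1, hbb⟩
  rcases h01 a b with h0 | h0
  · -- the other matching
    have h1 : g a b' = 1 := by
      rw [hs]
      apply hB'
      rw [hs]
      exact h0
    have h2 : g a' b' = 0 := hA' b' h1
    have h3 : g a' b = 1 := by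
      rw [hs]
      apply hB''
      rw [hs]
      exact h2
    refine fin_case (X := X) (Y := fun i => 1 - Y i) (a := a) (a' := a') (b := b') (b' := b)
      hs h01 hX (fun i => ?_) Xa Xa' ?_ ?_ eX (fun i j => ?_) hA (fun k hk => hB k ⟨hk.2, hk.1⟩)
      haa (by rw [hs]; exact hbb) nab' nab na'b' na'b naa nbb.symm h1 h0 h2 h3 hlt
    · have := hY i
      constructor <;> linarith
    · rw [Yb']; ring
    · rw [Yb]; ring
    · have h4 := eY j i
      have h5 : β * ((1 - Y i) - (1 - Y j)) = β * (Y j - Y i) := by ring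
      rw [h5, ← h4]
      refine Finset.sum_congr rfl fun k _ => ?_
      ring
  · have h1 : g a' b = 0 := hA' b h0
    have h2 : g a' b' = 1 := by
      rw [hs]
      apply hB'
      rw [hs]
      exact h1
    have h3 : g a b' = 0 := by
      rcases h01 a b' with h | h
      · exact h
      · exact absurd ⟨h, h2⟩ (hA b')
    exact fin_case hs h01 hX hY Xa Xa' Yb Yb' eX eY hA hB haa hbb nab nab' na'b na'b' naa nbb
      h0 h3 h1 h2 hlt

end Core

end Q281.LS
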