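import Mathlib
import Pool.Agent.Q281.LS.Core

/-!
# The Laplacian spread inequality for weighted graphs
-/

namespace Q281.LS

open Finset

section

variable {n : ℕ}

/-- the quadratic form -/
def QF (w : Fin n → Fin n → ℝ) (x : Fin n → ℝ) : ℝ := ∑ i, ∑ j, w i j * (x i - x j) ^ 2

/-- the bilinear form -/
def BF (w : Fin n → Fin n → ℝ) (x z : Fin n → ℝ) : ℝ :=
  ∑ i, ∑ j, w i j * ((x i - x j) * (z i - z j))

lemma QF_add (w : Fin n → Fin n → ℝ) (x z : Fin n → ℝ) (t : ℝ) :
    QF w (fun i => x i + t * z i) = QF w x + 2 * t * BF w x z + t ^ 2 * QF w z := by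
  unfold QF BF
  rw [Finset.mul_sum, Finset.mul_sum, ← Finset.sum_add_distrib, ← Finset.sum_add_distrib]
  refine Finset.sum_congr rfl fun i _ => ?_
  rw [Finset.mul_sum, Finset.mul_sum, ← Finset.sum_add_distrib, ← Finset.sum_add_distrib]
  refine Finset.sum_congr rfl fun j _ => ?_
  ring

lemma sq_add (x z : Fin n → ℝ) (t : ℝ) :
    ∑ i, (x i + t * z i) ^ 2 = ∑ i, x i ^ 2 + 2 * t * ∑ i, x i * z i + t ^ 2 * ∑ i, z i ^ 2 := by
  rw [Finset.mul_sum, Finset.mul_sum, ← Finset.sum_add_distrib, ← Finset.sum_add_distrib]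
  refine Finset.sum_congr rfl fun i _ => ?_
  ring

lemma QF_smul (w : Fin n → Fin n → ℝ) (x : Fin n → ℝ) (t : ℝ) :
    QF w (fun i => t * x i) = t ^ 2 * QF w x := by
  unfold QF
  rw [Finset.mul_sum]
  refine Finset.sum_congr rfl fun i _ => ?_
  rw [Finset.mul_sum]
  refine Finset.sum_congr rfl fun j _ => ?_
  ring

lemma lin_zero {b c : ℝ} (h : ∀ t : ℝ, 0 ≤ t * b + t ^ 2 * c) : b = 0 := by
  by_contra hb
  have h1 := h (-b / (|c| + 1))
  have h2 : 0 < |c| + 1 := by positivity
  have h3 : -b / (|c| + 1) * b + (-b / (|c| + 1)) ^ 2 * c =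
      (b ^ 2 / (|c| + 1) ^ 2) * (c - (|c| + 1)) := by
    field_simp
    ring
  rw [h3] at h1
  have h4 : 0 < b ^ 2 / (|c| + 1) ^ 2 := by positivity
  have h5 : c - (|c| + 1) < 0 := by linarith [le_abs_self c]
  nlinarith

theorem exists_min (hn : 2 ≤ n) (w : Fin n → Fin n → ℝ) (hs : ∀ i j, w i j = w j i) :
    ∃ (x : Fin n → ℝ) (α : ℝ), ∑ i, x i ^ 2 = 1 ∧ ∑ i, x i = 0 ∧
      (∀ z : Fin n → ℝ, ∑ i, z i = 0 → 2 * α * ∑ i, z i ^ 2 ≤ QF w z) ∧
      ∀ i j, ∑ k, (w i k * (x i - x k) + w j k * (x k - x j)) = α * (x i - x j) := by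
  classical
  let K : Set (Fin n → ℝ) := {x | ∑ i, x i ^ 2 = 1 ∧ ∑ i, x i = 0}
  have hKc : IsCompact K := by
    refine Metric.isCompact_of_isClosed_isBounded ?_ ?_
    · refine (isClosed_eq (by fun_prop) continuous_const).inter
        (isClosed_eq (by fun_prop) continuous_const)
    · refine (Metric.isBounded_closedBall (x := (0 : Fin n → ℝ)) (r := 1)).subset ?_
      intro x hx
      rw [mem_closedBall_zero_iff, pi_norm_le_iff_of_nonneg zero_le_one]
      intro i
      have h1 : x i ^ 2 ≤ 1 := by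
        rw [← hx.1]
        exact Finset.single_le_sum (f := fun i => x i ^ 2) (fun i _ => sq_nonneg _)
          (Finset.mem_univ i)
      rw [Real.norm_eq_abs]
      exact abs_le_one_iff_mul_self_le_one.2 (by nlinarith)
  let i0 : Fin n := ⟨0, by omega⟩
  let i1 : Fin n := ⟨1, by omega⟩
  have h01 : i0 ≠ i1 := by
    intro h
    have := congrArg Fin.val h
    simp [i0, i1] at this
  have hKn : K.Nonempty := by
    refine ⟨fun i => (Real.sqrt 2)⁻¹ * ((if i = i0 then 1 else 0) - (if i = i1 then 1 else 0)),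
      ?_, ?_⟩
    · have h1 : ∀ i : Fin n, ((Real.sqrt 2)⁻¹ * ((if i = i0 then 1 else 0) -
          (if i = i1 then (1 : ℝ) else 0))) ^ 2 =
          (1 / 2) * ((if i = i0 then 1 else 0) + (if i = i1 then 1 else 0)) := by
        intro i
        rw [mul_pow, inv_pow, Real.sq_sqrt (by norm_num)]
        by_cases h : i = i0
        · subst h
          simp [h01]
        · by_cases h' : i = i1
          · simp [h']
            have : ¬ i1 = i0 := fun hh => h01 hh.symm
            simp [this]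
          · simp [h, h']
      rw [Finset.sum_congr rfl (fun i _ => h1 i), ← Finset.mul_sum, Finset.sum_add_distrib]
      simp
      norm_num
    · rw [← Finset.mul_sum, Finset.sum_sub_distrib]
      simp
  have hcont : Continuous (QF w) := by
    unfold QF
    fun_prop
  obtain ⟨x, hxK, hmin⟩ := hKc.exists_isMinOn hKn hcont.continuousOn
  set m : ℝ := QF w x with hm
  have hz : ∀ z : Fin n → ℝ, ∑ i, z i = 0 → m * ∑ i, z i ^ 2 ≤ QF w z := by
    intro z hz
    by_cases h0 : ∑ i, z i ^ 2 = 0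
    · rw [h0, mul_zero]
      have h1 : ∀ i, z i = 0 := by
        intro i
        have := (Finset.sum_eq_zero_iff_of_nonneg (fun i _ => sq_nonneg (z i))).1 h0 i
          (Finset.mem_univ i)
        exact pow_eq_zero_iff (two_ne_zero) |>.1 this
      have h2 : QF w z = 0 := by
        unfold QF
        refine Finset.sum_eq_zero fun i _ => Finset.sum_eq_zero fun j _ => ?_
        rw [h1, h1]
        ring
      rw [h2]
    · have hpos : 0 < ∑ i, z i ^ 2 :=
        lt_of_le_of_ne (Finset.sum_nonneg fun i _ => sq_nonneg _) (Ne.symm h0)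
      set s := Real.sqrt (∑ i, z i ^ 2) with hs'
      have hs2 : s ^ 2 = ∑ i, z i ^ 2 := Real.sq_sqrt hpos.le
      have hspos : 0 < s := Real.sqrt_pos.2 hpos
      have hmem : (fun i => s⁻¹ * z i) ∈ K := by
        refine ⟨?_, ?_⟩
        · have : ∀ i, (s⁻¹ * z i) ^ 2 = (s ^ 2)⁻¹ * z i ^ 2 := by
            intro i
            rw [mul_pow, inv_pow]
          rw [Finset.sum_congr rfl (fun i _ => this i), ← Finset.mul_sum, hs2,
            inv_mul_cancel₀ h0]
        · rw [← Finset.mul_sum, hz, mul_zero]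
      have h1 : m ≤ QF w (fun i => s⁻¹ * z i) := hmin hmem
      rw [QF_smul, inv_pow, hs2] at h1
      rw [inv_mul_eq_div, le_div_iff₀ hpos] at h1
      exact h1
  refine ⟨x, m / 2, hxK.1, hxK.2, fun z h => ?_, ?_⟩
  · have := hz z h
    calc 2 * (m / 2) * ∑ i, z i ^ 2 = m * ∑ i, z i ^ 2 := by ring
      _ ≤ _ := this
  have hB : ∀ z : Fin n → ℝ, ∑ i, z i = 0 → BF w x z = m * ∑ i, x i * z i := by
    intro z h
    have h1 : ∀ t : ℝ, 0 ≤ t * (2 * (BF w x z - m * ∑ i, x i * z i)) +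
        t ^ 2 * (QF w z - m * ∑ i, z i ^ 2) := by
      intro t
      have h2 := hz (fun i => x i + t * z i) (by
        rw [Finset.sum_add_distrib, ← Finset.mul_sum, h, hxK.2]
        ring)
      rw [QF_add, sq_add, hxK.1, ← hm] at h2
      nlinarith
    have := lin_zero h1
    linarith
  have hB2 : ∀ z : Fin n → ℝ, BF w x z = 2 * ∑ i, z i * ∑ k, w i k * (x i - x k) := by
    intro z
    have h1 : BF w x z = ∑ i, ∑ j, w i j * (x i - x j) * z i -
        ∑ i, ∑ j, w i j * (x i - x j) * z j := by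
      unfold BF
      rw [← Finset.sum_sub_distrib]
      refine Finset.sum_congr rfl fun i _ => ?_
      rw [← Finset.sum_sub_distrib]
      refine Finset.sum_congr rfl fun j _ => ?_
      ring
    have h2 : ∑ i, ∑ j, w i j * (x i - x j) * z j =
        - ∑ i, ∑ j, w i j * (x i - x j) * z i := by
      rw [Finset.sum_comm, ← Finset.sum_neg_distrib]
      refine Finset.sum_congr rfl fun i _ => ?_
      rw [← Finset.sum_neg_distrib]
      refine Finset.sum_congr rfl fun j _ => ?_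
      rw [hs j i]
      ring
    have h3 : ∑ i, z i * ∑ k, w i k * (x i - x k) = ∑ i, ∑ j, w i j * (x i - x j) * z i := by
      refine Finset.sum_congr rfl fun i _ => ?_
      rw [Finset.mul_sum]
      refine Finset.sum_congr rfl fun j _ => ?_
      ring
    rw [h1, h2, h3]
    ring
  intro i j
  let z : Fin n → ℝ := fun k => (if k = i then 1 else 0) - (if k = j then 1 else 0)
  have hz0 : ∑ k, z k = 0 := by
    simp only [z]
    rw [Finset.sum_sub_distrib]
    simp
  have h1 := hB z hz0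
  rw [hB2] at h1
  have h2 : ∀ f : Fin n → ℝ, ∑ k, z k * f k = f i - f j := by
    intro f
    simp only [z, sub_mul]
    rw [Finset.sum_sub_distrib]
    simp
  have h3 : ∑ k, x k * z k = x i - x j := by
    rw [← h2 x]
    exact Finset.sum_congr rfl fun k _ => mul_comm _ _
  rw [h2 (fun i => ∑ k, w i k * (x i - x k)), h3] at h1
  have h4 : ∑ k, (w i k * (x i - x k) + w j k * (x k - x j)) =
      ∑ k, w i k * (x i - x k) - ∑ k, w j k * (x j - x k) := by
    rw [← Finset.sum_sub_distrib]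
    refine Finset.sum_congr rfl fun k _ => ?_
    ring
  rw [h4]
  linarith

theorem spread01 (hn : 2 ≤ n) (g : Fin n → Fin n → ℝ) (hs : ∀ i j, g i j = g j i)
    (h01 : ∀ i j, g i j = 0 ∨ g i j = 1) {x y : Fin n → ℝ} (hx : ∑ i, x i = 0)
    (hy : ∑ i, y i = 0) (nx : ∑ i, x i ^ 2 = 1) (ny : ∑ i, y i ^ 2 = 1) :
    2 ≤ QF g x + QF (fun i j => 1 - g i j) y := by
  classical
  obtain ⟨u, α, hu1, hu0, hu2, hu3⟩ := exists_min hn g hs
  obtain ⟨v, β, hv1, hv0, hv2, hv3⟩ := exists_min hn (fun i j => 1 - g i j)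
    (fun i j => by rw [hs i j])
  have h1 := hu2 x hx
  have h2 := hv2 y hy
  rw [nx] at h1
  rw [ny] at h2
  suffices h : 1 ≤ α + β by linarith
  have hne : Nonempty (Fin n) := ⟨⟨0, by omega⟩⟩
  have key : ∀ u : Fin n → ℝ, ∑ i, u i ^ 2 = 1 → ∑ i, u i = 0 →
      ∃ a a' : Fin n, (∀ i, u i ≤ u a) ∧ (∀ i, u a' ≤ u i) ∧ u a' < u a := by
    intro u h1 h0
    obtain ⟨a, ha⟩ := Finite.exists_max u
    obtain ⟨a', ha'⟩ := Finite.exists_min u
    refine ⟨a, a', ha, ha', lt_of_le_of_ne (ha a') fun he => ?_⟩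
    have hc : ∀ i, u i = u a := fun i => le_antisymm (ha i) (he ▸ ha' i)
    have h2 : (n : ℝ) * u a = 0 := by
      rw [← h0, Finset.sum_congr rfl (fun i _ => hc i)]
      simp
    have h3 : u a = 0 := by
      rcases mul_eq_zero.1 h2 with h | h
      · exfalso
        have : n = 0 := by exact_mod_cast h
        omega
      · exact h
    have h4 : ∑ i, u i ^ 2 = 0 := Finset.sum_eq_zero fun i _ => by rw [hc, h3]; ring
    rw [h4] at h1
    norm_num at h1
  obtain ⟨a, a', ha, ha', haa⟩ := key u hu1 hu0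
  obtain ⟨b, b', hb, hb', hbb⟩ := key v hv1 hv0
  have D0 : 0 < u a - u a' := sub_pos.2 haa
  have E0 : 0 < v b - v b' := sub_pos.2 hbb
  refine core (g := g) (X := fun i => (u i - u a') / (u a - u a'))
    (Y := fun i => (v i - v b') / (v b - v b')) (a := a) (a' := a') (b := b) (b' := b')
    hs h01 (fun i => ⟨?_, ?_⟩) (fun i => ⟨?_, ?_⟩) ?_ ?_ ?_ ?_ (fun i j => ?_) (fun i j => ?_)
  · exact div_nonneg (sub_nonneg.2 (ha' i)) D0.le
  · rw [div_le_one D0]
    linarith [ha i]
  · exact div_nonneg (sub_nonneg.2 (hb' i)) E0.le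
  · rw [div_le_one E0]
    linarith [hb i]
  · exact div_self D0.ne'
  · simp
  · exact div_self E0.ne'
  · simp
  · have h5 := hu3 i j
    have h6 : α * ((u i - u a') / (u a - u a') - (u j - u a') / (u a - u a')) =
        (α * (u i - u j)) / (u a - u a') := by ring
    rw [h6, ← h5, Finset.sum_div]
    refine Finset.sum_congr rfl fun k _ => ?_
    ring
  · have h5 := hv3 i j
    have h6 : β * ((v i - v b') / (v b - v b') - (v j - v b') / (v b - v b')) =
        (β * (v i - v j)) / (v b - v b') := by ring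
    rw [h6, ← h5, Finset.sum_div]
    refine Finset.sum_congr rfl fun k _ => ?_
    ring

theorem spread_unit (hn : 2 ≤ n) (w : Fin n → Fin n → ℝ)
    (h01 : ∀ i j, 0 ≤ w i j ∧ w i j ≤ 1) {x y : Fin n → ℝ} (hx : ∑ i, x i = 0)
    (hy : ∑ i, y i = 0) (nx : ∑ i, x i ^ 2 = 1) (ny : ∑ i, y i ^ 2 = 1) :
    2 ≤ QF w x + QF (fun i j => 1 - w i j) y := by
  classical
  let g : Fin n → Fin n → ℝ := fun i j => if (x i - x j) ^ 2 ≤ (y i - y j) ^ 2 then 1 else 0
  have h1 := spread01 hn g (fun i j => by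
    simp only [g]
    rw [show (x i - x j) ^ 2 = (x j - x i) ^ 2 by ring,
      show (y i - y j) ^ 2 = (y j - y i) ^ 2 by ring]) (fun i j => by
    simp only [g]
    split_ifs <;> simp) hx hy nx ny
  refine h1.trans ?_
  unfold QF
  rw [← Finset.sum_add_distrib, ← Finset.sum_add_distrib]
  refine Finset.sum_le_sum fun i _ => ?_
  rw [← Finset.sum_add_distrib, ← Finset.sum_add_distrib]
  refine Finset.sum_le_sum fun j _ => ?_
  have hw := h01 i j
  simp only [g]
  split_ifs with h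
  · have := mul_nonneg (sub_nonneg.2 hw.2) (sub_nonneg.2 h)
    nlinarith
  · have := mul_nonneg hw.1 (sub_nonneg.2 (not_le.1 h).le)
    nlinarith

theorem spread (hn : 2 ≤ n) (w : Fin n → Fin n → ℝ)
    (h01 : ∀ i j, 0 ≤ w i j ∧ w i j ≤ 1) {x y : Fin n → ℝ} (hx : ∑ i, x i = 0)
    (hy : ∑ i, y i = 0) (nx : x ≠ 0) (ny : y ≠ 0) :
    1 ≤ QF w x / (2 * ∑ i, x i ^ 2) + QF (fun i j => 1 - w i j) y / (2 * ∑ i, y i ^ 2) := by
  have key : ∀ u : Fin n → ℝ, u ≠ 0 → ∑ i, u i = 0 → ∃ c : ℝ, c ^ 2 * ∑ i, u i ^ 2 = 1 := by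
    intro u hu _
    have hpos : 0 < ∑ i, u i ^ 2 := by
      refine lt_of_le_of_ne (Finset.sum_nonneg fun i _ => sq_nonneg _) fun h0 => hu ?_
      funext i
      have := (Finset.sum_eq_zero_iff_of_nonneg (fun i _ => sq_nonneg (u i))).1 h0.symm i
        (Finset.mem_univ i)
      exact pow_eq_zero_iff (two_ne_zero) |>.1 this
    refine ⟨(Real.sqrt (∑ i, u i ^ 2))⁻¹, ?_⟩
    rw [inv_pow, Real.sq_sqrt hpos.le, inv_mul_cancel₀ hpos.ne']
  obtain ⟨c, hc⟩ := key x nx hx
  obtain ⟨d, hd⟩ := key y ny hy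
  have h1 := spread_unit hn w h01 (x := fun i => c * x i) (y := fun i => d * y i)
    (by rw [← Finset.mul_sum, hx, mul_zero]) (by rw [← Finset.mul_sum, hy, mul_zero])
    (by
      rw [← hc, Finset.mul_sum]
      exact Finset.sum_congr rfl fun i _ => by ring)
    (by
      rw [← hd, Finset.mul_sum]
      exact Finset.sum_congr rfl fun i _ => by ring)
  rw [QF_smul, QF_smul] at h1
  have hX : c ^ 2 = 1 / ∑ i, x i ^ 2 := by
    rw [eq_div_iff]
    · exact hc
    · rintro h
      rw [h] at hc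
      norm_num at hc
  have hY : d ^ 2 = 1 / ∑ i, y i ^ 2 := by
    rw [eq_div_iff]
    · exact hd
    · rintro h
      rw [h] at hd
      norm_num at hd
  rw [hX, hY] at h1
  generalize (∑ i, x i ^ 2) = A at h1 ⊢
  generalize (∑ i, y i ^ 2) = B at h1 ⊢
  have e1 : QF w x / (2 * A) = (1 / A * QF w x) / 2 := by
    rw [one_div, mul_comm 2 A, ← div_div]
    ring
  have e2 : QF (fun i j => 1 - w i j) y / (2 * B) =
      (1 / B * QF (fun i j => 1 - w i j) y) / 2 := by
    rw [one_div, mul_comm 2 B, ← div_div]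
    ring
  rw [e1, e2]
  linarith

end

end Q281.LS
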